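import Pool.Agent.Helper78.DT.Goals

/-!
# Project DT, packet IND: the strings are almost independent
-/

set_option autoImplicit false

namespace Pool.Agent.Helper20.DT

open scoped Classical
open Pool.Agent.Helper78.DT

theorem av_split {A B : Type} [Fintype A] [DecidableEq A] [Fintype B] [Nonempty B] (a0 : A)
    (Φ : B → ℝ) (hΦ : av Φ = 0) (Ψ : (A → B) → ℝ)
    (hΨ : ∀ η b, Ψ (Function.update η a0 b) = Ψ η) :
    av (fun η : A → B => Φ (η a0) * Ψ η) = 0 := by
  obtain ⟨b0⟩ := ‹Nonempty B›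
  have h : ∀ (b : B) (g : {j // j ≠ a0} → B), Ψ ((Equiv.funSplitAt a0 B).symm (b, g)) =
      Ψ ((Equiv.funSplitAt a0 B).symm (b0, g)) := by
    intro b g
    rw [← hΨ ((Equiv.funSplitAt a0 B).symm (b0, g)) b]
    congr 1
    funext j
    by_cases hj : j = a0
    · subst hj
      simp [Equiv.funSplitAt, Equiv.piSplitAt]
    · simp [Equiv.funSplitAt, Equiv.piSplitAt, hj]
  have h0 : ∀ (b : B) (g : {j // j ≠ a0} → B), (Equiv.funSplitAt a0 B).symm (b, g) a0 = b := by
    intro b g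
    simp [Equiv.funSplitAt, Equiv.piSplitAt]
  rw [← av_equiv (Equiv.funSplitAt a0 B).symm, av_prod]
  simp only [h0, h, av_mul_left]
  rw [av_mul_right, hΦ, zero_mul]

theorem lag_av (hL : LagStmt) {R d : ℕ} (hR : R.Prime) {X : Type} [Fintype X] [DecidableEq X]
    (w : X → ℕ) (hw : Function.Injective w) (hlt : ∀ x, w x < R) (hc : Fintype.card X ≤ d)
    (Ψ : (X → Fin R) → ℝ) :
    av (fun θ : Fin d → Fin R => Ψ (fun x => ⟨pv R d (ext θ) (w x), Nat.mod_lt _ hR.pos⟩)) =
      av Ψ := by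
  obtain ⟨E, hE⟩ : ∃ E : (Fin d → Fin R) → X → Fin R,
    E = fun θ x => ⟨pv R d (ext θ) (w x), Nat.mod_lt _ hR.pos⟩ := ⟨_, rfl⟩
  have hEv : ∀ θ x, ((E θ x : Fin R) : ℕ) = pv R d (ext θ) (w x) := fun θ x => by rw [hE]
  have hcard : (Finset.univ.image w).card = Fintype.card X := by
    rw [Finset.card_image_of_injective _ hw, Finset.card_univ]
  have hfib : ∀ η : X → Fin R, (Finset.univ.filter fun θ => E θ = η).card =
      R ^ (d - Fintype.card X) := by
    intro η
    have h1 := hL R d hR (Finset.univ.image w) (by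
      intro n hn
      obtain ⟨x, -, rfl⟩ := Finset.mem_image.mp hn
      exact hlt x) (by rw [hcard]; exact hc) (Function.extend w (fun x => (η x : ℕ)) 0) (by
      intro n hn
      obtain ⟨x, -, rfl⟩ := Finset.mem_image.mp hn
      rw [hw.extend_apply]
      exact (η x).2)
    rw [hcard] at h1
    rw [← h1, Nat.card_eq_fintype_card, Fintype.card_subtype]
    congr 1
    ext θ
    simp only [Finset.mem_filter, Finset.mem_univ, true_and, Finset.mem_image, forall_exists_index,
      forall_apply_eq_imp_iff]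
    constructor
    · intro h x
      rw [← hEv, h, hw.extend_apply]
    · intro h
      funext x
      apply Fin.ext
      rw [hEv, h x, hw.extend_apply]
  have h2 : av (fun θ : Fin d → Fin R => Ψ (E θ)) = av Ψ := by
    unfold av
    have h1 : ∑ θ, Ψ (E θ) = (R : ℝ) ^ (d - Fintype.card X) * ∑ η, Ψ η := by
      rw [← Finset.sum_fiberwise Finset.univ E, Finset.mul_sum]
      refine Finset.sum_congr rfl fun η _ => ?_
      rw [Finset.sum_congr rfl (g := fun _ => Ψ η) (fun θ hθ => by rw [(Finset.mem_filter.mp hθ).2]),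
        Finset.sum_const, nsmul_eq_mul]
      congr 1
      have h3 := hfib η
      have h4 : ((Finset.univ.filter fun θ => E θ = η).card : ℝ) =
          ((R ^ (d - Fintype.card X) : ℕ) : ℝ) := by rw [h3]
      rw [h4]
      push_cast
      rfl
    have hR0 : (R : ℝ) ≠ 0 := by exact_mod_cast hR.ne_zero
    rw [h1, Fintype.card_fun, Fintype.card_fun, Fintype.card_fin, Fintype.card_fin]
    have h5 : R ^ d = R ^ (d - Fintype.card X) * R ^ Fintype.card X := by
      rw [← pow_add, Nat.sub_add_cancel hc]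
    rw [h5]
    push_cast
    rw [mul_div_mul_left _ _ (pow_ne_zero _ hR0)]
  rw [← h2, hE]

theorem av_marg {P R : ℕ} (hR : 0 < R) (S : Set (Fin P)) (G : (S → Fin R) → ℝ) :
    av (fun y : Fin P → Fin R => G (fun u => y u)) = av G := by
  have : Nonempty (Fin R) := ⟨⟨0, hR⟩⟩
  have h1 := av_equiv (Equiv.piEquivPiSubtypeProd (fun u => u ∈ S) (fun _ : Fin P => Fin R))
    (fun p => G p.1)
  rw [av_prod] at h1
  simp only [av_const] at h1
  refine Eq.trans ?_ h1
  rfl

theorem ind (hL : LagStmt) : IndStmt := by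
  intro R P d q j σ hR hq hj φ S hS hσ τ hτ
  obtain ⟨i0, hi0⟩ := hτ
  have hR0 := hR.pos
  have hne : Nonempty (Fin R) := ⟨⟨0, hR0⟩⟩
  obtain ⟨A, hA⟩ : ∃ A : Finset (Fin q), A = Finset.univ.image τ := ⟨_, rfl⟩
  have hmem : ∀ i, τ i ∈ A := fun i => by
    rw [hA]
    exact Finset.mem_image_of_mem _ (Finset.mem_univ i)
  obtain ⟨Φ, hΦ⟩ : ∃ Φ : (S → Fin R) → ℝ, Φ = fun s =>
    (if φ (fun u => if h : u ∈ S then decide (2 * (s ⟨u, h⟩ : ℕ) < R) else false) then (1 : ℝ) else 0) -
      bp R P φ := ⟨_, rfl⟩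
  have hΦ0 : av Φ = 0 := by
    rw [hΦ, av_sub, av_const, sub_eq_zero]
    have h1 := av_marg hR0 S (fun s =>
      if φ (fun u => if h : u ∈ S then decide (2 * (s ⟨u, h⟩ : ℕ) < R) else false) then (1 : ℝ) else 0)
    rw [← h1]
    unfold bp pr
    refine av_congr fun y => ?_
    have h2 : φ (fun u => if h : u ∈ S then decide (2 * (y u : ℕ) < R) else false) ↔
        φ (fun u => decide (2 * (y u : ℕ) < R)) := by
      apply hS
      intro v hv
      simp only [hv, dif_pos]
    by_cases h3 : φ (fun u => decide (2 * (y u : ℕ) < R))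
    · rw [if_pos h3, if_pos (h2.mpr h3)]
    · rw [if_neg h3, if_neg fun h => h3 (h2.mp h)]
  obtain ⟨w, hw⟩ : ∃ w : A × S → ℕ, w = fun x => ((x.1 : Fin q) : ℕ) * P + ((x.2 : Fin P) : ℕ) :=
    ⟨_, rfl⟩
  have hwinj : Function.Injective w := by
    rintro ⟨⟨a, ha⟩, ⟨u, hu⟩⟩ ⟨⟨a', ha'⟩, ⟨u', hu'⟩⟩ h
    rw [hw] at h
    simp only at h
    have hP : 0 < P := u.pos
    have h1 : (u : ℕ) = u' := by
      have h2 := congrArg (· % P) h
      simp only [Nat.mul_add_mod_of_lt u.2, Nat.mul_add_mod_of_lt u'.2, Nat.add_mod, Nat.mul_mod_left,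
        zero_add, Nat.mod_eq_of_lt u.2, Nat.mod_eq_of_lt u'.2] at h2
      exact h2
    have h3 : (a : ℕ) = a' := by
      rw [h1] at h
      exact Nat.eq_of_mul_eq_mul_right hP (Nat.add_right_cancel h)
    have h4 : u = u' := Fin.ext h1
    have h5 : a = a' := Fin.ext h3
    subst h4
    subst h5
    rfl
  have hwlt : ∀ x, w x < R := by
    rintro ⟨⟨a, ha⟩, ⟨u, hu⟩⟩
    rw [hw]
    simp only
    have h1 : (a : ℕ) * P + u < (a + 1) * P := by
      rw [add_mul, one_mul]
      exact Nat.add_lt_add_left u.2 _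
    have h2 : ((a : ℕ) + 1) * P ≤ q * P := Nat.mul_le_mul_right _ a.2
    omega
  have hcard : Fintype.card (A × S) ≤ d := by
    rw [Fintype.card_prod, Fintype.card_coe]
    have h1 : A.card ≤ j := by
      rw [hA]
      exact Finset.card_image_le.trans (le_of_eq (by rw [Finset.card_univ, Fintype.card_fin]))
    have h2 : Fintype.card S ≤ σ := by
      rw [← Nat.card_eq_fintype_card]
      exact hσ
    exact (Nat.mul_le_mul h1 h2).trans hj
  have h1 := lag_av hL hR w hwinj hwlt hcard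
    (fun η => ∏ i, Φ (fun u => η (⟨τ i, hmem i⟩, u)))
  have h2 : ∀ θ : Fin d → Fin R, ∏ i, ((if φ (st R P d (ext θ) (τ i)) then (1 : ℝ) else 0) - bp R P φ) =
      ∏ i, Φ (fun u => (⟨pv R d (ext θ) (w (⟨τ i, hmem i⟩, u)), Nat.mod_lt _ hR.pos⟩ : Fin R)) := by
    intro θ
    refine Finset.prod_congr rfl fun i _ => ?_
    rw [hΦ]
    simp only
    congr 1
    have h3 : φ (st R P d (ext θ) (τ i)) ↔ φ (fun u => if h : u ∈ S then
        decide (2 * pv R d (ext θ) (w (⟨τ i, hmem i⟩, ⟨u, h⟩)) < R) else false) := by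
      apply hS
      intro v hv
      simp only [hv, dif_pos, hw]
      rfl
    by_cases h4 : φ (st R P d (ext θ) (τ i))
    · rw [if_pos h4, if_pos (h3.mp h4)]
    · rw [if_neg h4, if_neg fun h => h4 (h3.mpr h)]
  rw [av_congr h2, h1]
  have h3 := av_equiv (Equiv.curry A S (Fin R)) (fun η => ∏ i, Φ (η ⟨τ i, hmem i⟩))
  have h4 : av (fun η : A → S → Fin R => ∏ i, Φ (η ⟨τ i, hmem i⟩)) = 0 := by
    have h5 := av_split (⟨τ i0, hmem i0⟩ : A) Φ hΦ0
      (fun η => ∏ i ∈ Finset.univ.erase i0, Φ (η ⟨τ i, hmem i⟩)) (by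
        intro η b
        refine Finset.prod_congr rfl fun i hi => ?_
        have h6 : (⟨τ i, hmem i⟩ : A) ≠ ⟨τ i0, hmem i0⟩ := fun h =>
          hi0 i (Finset.ne_of_mem_erase hi) (congrArg Subtype.val h)
        rw [Function.update_of_ne h6])
    rw [← h5]
    refine av_congr fun η => ?_
    rw [Finset.mul_prod_erase Finset.univ (fun i => Φ (η ⟨τ i, hmem i⟩)) (Finset.mem_univ i0)]
  rw [← h4, ← h3]
  rfl

end Pool.Agent.Helper20.DT
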